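import Pool.Agent.N662.FP.Stm

/-!
# Project FL (helper662), part MED: existence of medians (helper250)
-/

set_option autoImplicit false
open MeasureTheory ProbabilityTheory Filter Set
open scoped ENNReal Topology

namespace Pool.Agent.N250.FL.Med

open Pool.Agent.N662.FP

theorem t_MED : S_MED := by
  intro Ω _ _ T hT
  obtain ⟨ν, hν⟩ : ∃ ν : Measure ℝ, ν = Measure.map T volume := ⟨_, rfl⟩
  have hp : IsProbabilityMeasure ν := by
    rw [hν]
    exact Measure.isProbabilityMeasure_map hT.aemeasurable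
  have hF : ∀ t, cdf ν t = (volume : Measure Ω).real {ω | T ω ≤ t} := by
    intro t
    rw [cdf_eq_real, hν, measureReal_def, Measure.map_apply hT measurableSet_Iic]
    rfl
  obtain ⟨b, hb⟩ : ∃ b, cdf ν b < 1 / 2 :=
    ((tendsto_order.1 (tendsto_cdf_atBot ν)).2 (1 / 2) (by norm_num)).exists
  obtain ⟨c, hc⟩ : ∃ c, 1 / 2 < cdf ν c :=
    ((tendsto_order.1 (tendsto_cdf_atTop ν)).1 (1 / 2) (by norm_num)).exists
  have hbdd : BddBelow {t | 1 / 2 ≤ cdf ν t} := by
    refine ⟨b, fun t ht => ?_⟩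
    by_contra h
    push Not at h
    have h1 := monotone_cdf ν h.le
    have h2 : 1 / 2 ≤ cdf ν t := ht
    linarith
  have hne : {t | 1 / 2 ≤ cdf ν t}.Nonempty := ⟨c, hc.le⟩
  obtain ⟨a, ha⟩ : ∃ a, a = sInf {t | 1 / 2 ≤ cdf ν t} := ⟨_, rfl⟩
  have h1 : 1 / 2 ≤ cdf ν a := by
    have hr : ContinuousWithinAt (cdf ν) (Ici a) a := (cdf ν).right_continuous a
    have hr2 : Tendsto (cdf ν) (𝓝[>] a) (𝓝 (cdf ν a)) :=
      hr.tendsto.mono_left (nhdsWithin_mono _ Ioi_subset_Ici_self)
    refine ge_of_tendsto hr2 ?_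
    filter_upwards [self_mem_nhdsWithin] with t ht
    have ht2 : sInf {t | 1 / 2 ≤ cdf ν t} < t := by rw [← ha]; exact ht
    obtain ⟨s, hs, hst⟩ := exists_lt_of_csInf_lt hne ht2
    exact le_trans hs (monotone_cdf ν hst.le)
  have h2 : ∀ t, t < a → cdf ν t < 1 / 2 := by
    intro t ht
    by_contra h
    push Not at h
    have : a ≤ t := by
      rw [ha]
      exact csInf_le hbdd h
    linarith
  have h3 : ν (Iio a) ≤ ENNReal.ofReal (1 / 2) := by
    have e1 : ν (Iio a) = (cdf ν).measure (Iio a) := by rw [measure_cdf]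
    rw [e1, StieltjesFunction.measure_Iio _ (tendsto_cdf_atBot ν)]
    apply ENNReal.ofReal_le_ofReal
    rw [sub_zero]
    refine le_of_tendsto ((monotone_cdf ν).tendsto_leftLim a) ?_
    filter_upwards [self_mem_nhdsWithin] with t ht
    exact (h2 t ht).le
  refine ⟨a, ?_, by rw [← hF]; exact h1⟩
  have h4 : (volume : Measure Ω).real {ω | T ω < a} ≤ 1 / 2 := by
    have e : (volume : Measure Ω) {ω | T ω < a} = ν (Iio a) := by
      rw [hν, Measure.map_apply hT measurableSet_Iio]
      rfl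
    rw [measureReal_def, e]
    exact ENNReal.toReal_le_of_le_ofReal (by norm_num) h3
  have h5 : {ω | a ≤ T ω} = {ω | T ω < a}ᶜ := by
    ext ω
    simp
  rw [h5, measureReal_compl (measurableSet_lt hT measurable_const), probReal_univ]
  linarith

end Pool.Agent.N250.FL.Med
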